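import Pool.Agent.Helper46.RSW.Sides

/-!
RSW, part 3: crossing probabilities of long boxes are bounded from below.
-/

namespace H47Perc.H46
open Finset SimpleGraph
open Pool.Agent.Helper69.RSW (P P_mono P_map P_restrict P_congr Dep P_or_le P_sum P_false P_nonneg
  P_indep Up harris)

lemma P_inter {F G : Finset (Sym2 (ℤ × ℤ))} (h : G ⊆ F) (A : Finset (Sym2 (ℤ × ℤ)) → Prop) :
    P F (fun ω => A (ω ∩ G)) = P G A := by
  have hdep : Dep G (fun ω => A (ω ∩ G)) := by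
    intro S
    simp only [inter_assoc, inter_self]
  rw [P_restrict h hdep]
  apply P_congr
  intro S hS
  rw [inter_eq_left.2 hS]

lemma box_mono {a b c d a' b' c' d' : ℤ} (ha : a' ≤ a) (hb : b ≤ b') (hc : c' ≤ c) (hd : d ≤ d') :
    box a b c d ⊆ box a' b' c' d' := by
  intro z hz
  rw [mem_box] at hz ⊢
  omega

lemma box_flipY (a b n : ℤ) : (box a b (-n) n).map flipY.toEmbedding = box a b (-n) n := by
  ext ⟨x, y⟩
  rw [mem_map_equiv, mem_box, mem_box]
  have : flipY.symm (x, y) = (x, -y) := rfl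
  rw [this]
  simp only
  omega

lemma map_flipY_flipY (S : Finset (Sym2 (ℤ × ℤ))) :
    (S.map (emb flipY)).map (emb flipY) = S := by
  have h := emb_symm_map flipY S
  have : flipY.symm = flipY := rfl
  rwa [this] at h

/-- the open vertical crossing of the square is joined to the right side -/
def XR (n : ℤ) (ω : Finset (Sym2 (ℤ × ℤ))) : Prop :=
  ∃ x1 x0 y : ℤ, 0 ≤ x1 ∧ x1 ≤ n ∧ 0 ≤ x0 ∧ x0 ≤ n ∧ -n ≤ y ∧ y ≤ n ∧
    Joined (ω ∩ edgesIn (box 0 n 0 n)) (x1, n) (x0, 0) ∧ Joined ω (x1, n) (2 * n, y)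

lemma XR_up (n : ℤ) : Up (XR n) := by
  rintro S T h ⟨x1, x0, y, h1, h2, h3, h4, h5, h6, h7, h8⟩
  exact ⟨x1, x0, y, h1, h2, h3, h4, h5, h6, joined_mono (inter_subset_inter_right h) h7,
    joined_mono h h8⟩

lemma LR_up (a b c d : ℤ) : Up (LR a b c d) := by
  rintro S T h ⟨y, y', h1, h2, h3, h4, h5⟩
  exact ⟨y, y', h1, h2, h3, h4, joined_mono h h5⟩

lemma BT_up (a b c d : ℤ) : Up (BT a b c d) := by
  rintro S T h ⟨y, y', h1, h2, h3, h4, h5⟩
  exact ⟨y, y', h1, h2, h3, h4, joined_mono h h5⟩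

theorem fixedD (n : ℕ) (hn : 1 ≤ n) (ω0 : Finset (Sym2 (ℤ × ℤ)))
    (hmiss : ∀ j : ℤ, ((n : ℤ), j) ∉ DW n ω0) :
    P (edgesIn (box 0 (2*n) (-n) n)) (fun ω => DW n ω = DW n ω0)
      * (P (edgesIn (box 0 (2*n) (-n) n)) (LR 0 (2*n) (-n) n) / 2)
    ≤ P (edgesIn (box 0 (2*n) (-n) n)) (fun ω => DW n ω = DW n ω0 ∧ XR n ω) := by
  classical
  obtain ⟨x1, x0, hx1, hx1', hx0, hx0', hj⟩ := bd_joined n hn (DW n ω0)
    (fun j h0 h1 => DW_left (by rw [mem_faces]; simp only; omega)) hmiss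
  have hlat : ∀ e ∈ Bd n (DW n ω0), e ∈ lattice.edgeSet := by
    intro e he
    have := (mem_Bd.1 he).1
    unfold edgesIn at this
    exact (mem_filter.1 this).2
  obtain ⟨p1, hp1⟩ := joined_walk hlat hj
  have hS : edgesIn (box 0 (n:ℤ) 0 n) ⊆ edgesIn (box 0 (2*n) (-n) n) :=
    edgesIn_mono (box_mono le_rfl (by omega) (by omega) le_rfl)
  have h1 : ∀ e ∈ p1.edges, e ∈ ω0 ∧ e ∈ edgesIn (box 0 (n:ℤ) 0 n) := fun e he =>
    ⟨Bd_DW n ω0 (hp1 e he), (mem_Bd.1 (hp1 e he)).1⟩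
  have hs1 : ∀ w ∈ p1.support, w ∈ box 0 (n:ℤ) 0 n := by
    apply support_subset p1 (fun e he => (h1 e he).2)
    rw [mem_box]; simp only; omega
  set F := edgesIn (box 0 (2*n:ℤ) (-n) n) with hF
  set D := DW n ω0 with hD
  set Rest := F \ Exr n D with hRest
  have hExF : Ex n D ⊆ F := fun e he => hS (mem_Ex.1 he).1
  have hFmap : F.map (emb flipY) = F := by
    rw [hF, ← edgesIn_map flipY_iso, box_flipY]
  have hExr : (Exr n D).map (emb flipY) = Exr n D := by
    unfold Exr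
    rw [map_union, map_flipY_flipY, union_comm]
  have hRmap : Rest.map (emb flipY) = Rest := by
    rw [hRest, Finset.map_sdiff, hFmap, hExr]
  let A : Finset (Sym2 (ℤ × ℤ)) → Prop := fun ω =>
    ∃ c ∈ p1.support, ∃ y : ℤ, -(n:ℤ) ≤ y ∧ y ≤ n ∧ Joined (ω ∩ Rest) c (2 * (n:ℤ), y)
  let A' : Finset (Sym2 (ℤ × ℤ)) → Prop := fun ω =>
    ∃ c ∈ p1.support, ∃ y : ℤ, -(n:ℤ) ≤ y ∧ y ≤ n ∧ Joined (ω ∩ Rest) (flipY c) (2 * (n:ℤ), y)
  have hA1 : P F (LR 0 (2*n) (-n) n) ≤ P F A + P F A' := by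
    refine le_trans (P_mono (B := fun ω => A ω ∨ A' ω) ?_) (P_or_le F A A')
    intro ω hω hLR
    obtain ⟨c, hc, y, hy, hy', h⟩ := continuation (by omega) (by omega) p1 h1 hs1 hω hLR
    rcases h with h | h
    · exact Or.inl ⟨c, hc, y, hy, hy', h⟩
    · exact Or.inr ⟨c, hc, y, hy, hy', h⟩
  have hA2 : P F A = P F A' := by
    have e1 : P F A = P (F.map (emb flipY)) A := by rw [hFmap]
    rw [e1, P_map]
    apply P_congr
    intro S _
    have hkey : ∀ c : ℤ × ℤ, ∀ y : ℤ, Joined (S.map (emb flipY) ∩ Rest) c (2 * (n:ℤ), y) ↔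
        Joined (S ∩ Rest) (flipY c) (2 * (n:ℤ), -y) := by
      intro c y
      have e2 : S.map (emb flipY) ∩ Rest = (S ∩ Rest).map (emb flipY) := by
        rw [map_inter, hRmap]
      rw [e2, ← joined_map (f := flipY) (ω := S ∩ Rest), flipY_flipY]
      have e3 : flipY (2 * (n:ℤ), -y) = (2 * (n:ℤ), y) := by simp
      rw [e3]
    constructor
    · rintro ⟨c, hc, y, hy, hy', h⟩
      exact ⟨c, hc, -y, by omega, by omega, (hkey c y).1 h⟩
    · rintro ⟨c, hc, y, hy, hy', h⟩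
      refine ⟨c, hc, -y, by omega, by omega, (hkey c (-y)).2 ?_⟩
      rw [neg_neg]; exact h
  have hA3 : P F (fun ω => DW n ω = D ∧ A ω) = P F (fun ω => DW n ω = D) * P F A := by
    have hRF : Rest ⊆ F := by rw [hRest]; exact sdiff_subset
    have hdisj : Disjoint (Ex n D) Rest := by
      rw [Finset.disjoint_left]
      intro e he he'
      rw [hRest, mem_sdiff] at he'
      exact he'.2 (by unfold Exr; exact mem_union_left _ he)
    have hdepA : Dep Rest A := by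
      intro S
      simp only [A, inter_assoc, inter_self]
    exact P_indep hExF hRF hdisj (dep_DW n D) hdepA
  have hA4 : P F (fun ω => DW n ω = D ∧ A ω) ≤ P F (fun ω => DW n ω = D ∧ XR n ω) := by
    apply P_mono
    rintro ω hω ⟨hd, c, hc, y, hy, hy', h⟩
    refine ⟨hd, x1, x0, y, hx1, hx1', hx0, hx0', hy, hy', ?_, ?_⟩
    · apply walk_joined p1
      intro e he
      rw [mem_inter]
      refine ⟨?_, (h1 e he).2⟩
      apply Bd_DW n ω
      rw [hd]
      exact hp1 e he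
    · refine joined_trans ?_ (joined_mono inter_subset_left h)
      apply walk_joined (p1.takeUntil c hc)
      intro e he
      apply Bd_DW n ω
      rw [hd]
      exact hp1 e (p1.edges_takeUntil_subset_edges hc he)
  have h0 := P_nonneg F (fun ω => DW n ω = D)
  nlinarith

/-- the dual cluster misses the right column -/
def Miss (n : ℤ) (ω : Finset (Sym2 (ℤ × ℤ))) : Prop := ∀ j : ℤ, (n, j) ∉ DW n ω

lemma miss_of_BT {n : ℤ} (hn : 1 ≤ n) {ω : Finset (Sym2 (ℤ × ℤ))}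
    (h : BT 0 n 0 n (ω ∩ edgesIn (box 0 n 0 n))) : Miss n ω := by
  classical
  intro j hjD
  obtain ⟨x, x', hx, hx1, hx', hx1', hj⟩ := h
  have hlat : ∀ e ∈ ω ∩ edgesIn (box 0 n 0 n), e ∈ lattice.edgeSet := by
    intro e he
    have := (mem_inter.1 he).2
    unfold edgesIn at this
    exact (mem_filter.1 this).2
  obtain ⟨p, hp⟩ := joined_walk hlat (joined_symm hj)
  have hps : ∀ w ∈ p.support, w ∈ box 0 n 0 n := by
    apply support_subset p (fun e he => (mem_inter.1 (hp e he)).2)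
    rw [mem_box]; simp only; omega
  have hside : ∀ f, InW n ω f → side p f = 0 := by
    rintro f ⟨i, hi, hpath⟩
    induction hpath with
    | refl => exact side_left p (fun w hw => by have := mem_box.1 (hps w hw); omega)
    | @tail f g _ hfg ih =>
      rw [← ih]
      obtain ⟨hadj, hf, hg, he, hω⟩ := hfg
      rw [mem_faces] at hf hg
      refine (side_face_adj p hadj (by simp only; omega) (by simp only; omega)
        (by simp only; omega) (by simp only; omega) ?_).symm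
      intro h
      exact hω (mem_inter.1 (hp _ h)).1
  obtain ⟨hf, hW⟩ := mem_DW.1 hjD
  rw [mem_faces] at hf
  have h1 := hside _ hW
  rw [side_far_one p (fun w hw => (mem_box.1 (hps w hw)).2.1) (by simp only at hf ⊢; omega)
    (by simp only at hf ⊢; omega)] at h1
  exact absurd h1 (by decide)

theorem XR_prob (n : ℕ) (hn : 1 ≤ n) : 1/8 ≤ P (edgesIn (box 0 (2*n) (-n) n)) (XR n) := by
  classical
  set F := edgesIn (box 0 (2*n:ℤ) (-n) n) with hF
  have hS : edgesIn (box 0 (n:ℤ) 0 n) ⊆ F :=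
    edgesIn_mono (box_mono le_rfl (by omega) (by omega) le_rfl)
  have hLR : 1/2 ≤ P F (LR 0 (2*n) (-n) n) := by
    have h1 := perc_LR 0 (2*n) (-n) n
    rw [Pool.Agent.Helper69.RSW.perc_half_eq] at h1
    rw [hF, h1]
    exact half_le_pLR (by omega) (by omega) (by omega)
  have hMiss : 1/2 ≤ P F (Miss n) := by
    have h1 : P F (fun ω => BT 0 n 0 n (ω ∩ edgesIn (box 0 (n:ℤ) 0 n))) ≤ P F (Miss n) :=
      P_mono (fun ω _ h => miss_of_BT (by omega) h)
    refine le_trans ?_ h1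
    rw [P_inter hS (BT 0 n 0 n), ← Pool.Agent.Helper69.RSW.perc_half_eq, perc_BT]
    exact half_le_pLR (by omega) (by omega) (by omega)
  let I : Finset (Finset (ℤ × ℤ)) := (faces n).powerset.filter (fun D => ∀ j : ℤ, ((n:ℤ), j) ∉ D)
  have hI : ∀ ω, Miss n ω → DW n ω ∈ I := by
    intro ω h
    simp only [I, mem_filter, mem_powerset]
    exact ⟨fun f hf => (mem_DW.1 hf).1, h⟩
  have e1 : P F (Miss n) = ∑ D ∈ I, P F (fun ω => DW n ω = D ∧ Miss n ω) :=
    P_sum F (DW n) I (Miss n) (fun ω _ h => hI ω h)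
  have e2 : P F (fun ω => Miss n ω ∧ XR n ω)
      = ∑ D ∈ I, P F (fun ω => DW n ω = D ∧ (Miss n ω ∧ XR n ω)) :=
    P_sum F (DW n) I (fun ω => Miss n ω ∧ XR n ω) (fun ω _ h => hI ω h.1)
  have e3 : P F (Miss n) * (P F (LR 0 (2*n) (-n) n) / 2) ≤ P F (fun ω => Miss n ω ∧ XR n ω) := by
    rw [e1, e2, sum_mul]
    apply sum_le_sum
    intro D hD
    by_cases hex : ∃ ω0, DW n ω0 = D
    · obtain ⟨ω0, rfl⟩ := hex
      have hm : ∀ j : ℤ, ((n:ℤ), j) ∉ DW n ω0 := (mem_filter.1 hD).2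
      have h1 := fixedD n hn ω0 hm
      have h2 : P F (fun ω => DW n ω = DW n ω0 ∧ Miss n ω) ≤ P F (fun ω => DW n ω = DW n ω0) :=
        P_mono (fun ω _ h => h.1)
      have h3 : P F (fun ω => DW n ω = DW n ω0 ∧ XR n ω) ≤
          P F (fun ω => DW n ω = DW n ω0 ∧ (Miss n ω ∧ XR n ω)) := by
        apply P_mono
        rintro ω _ ⟨h4, h5⟩
        refine ⟨h4, ?_, h5⟩
        intro j
        rw [h4]
        exact hm j
      have h4 : 0 ≤ P F (LR 0 (2*n) (-n) n) / 2 := by linarith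
      exact (mul_le_mul_of_nonneg_right h2 h4).trans (h1.trans h3)
    · have h1 : P F (fun ω => DW n ω = D ∧ Miss n ω) = 0 := by
        rw [← P_false F]
        apply P_congr
        intro ω _
        constructor
        · rintro ⟨h, _⟩; exact hex ⟨ω, h⟩
        · exact False.elim
      rw [h1, zero_mul]
      exact P_nonneg _ _
  have e4 : P F (fun ω => Miss n ω ∧ XR n ω) ≤ P F (XR n) := P_mono (fun ω _ h => h.2)
  nlinarith

/-! ### the mirror image -/

/-- reflection in the vertical axis through `n/2` -/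
def flipX (n : ℤ) : ℤ × ℤ ≃ ℤ × ℤ where
  toFun z := (n - z.1, z.2)
  invFun z := (n - z.1, z.2)
  left_inv z := by simp
  right_inv z := by simp

@[simp] lemma flipX_apply (n : ℤ) (z : ℤ × ℤ) : flipX n z = (n - z.1, z.2) := rfl

lemma flipX_iso (n : ℤ) : IsIso (flipX n) := by
  rintro ⟨a, b⟩ ⟨c, d⟩
  unfold lattice
  simp only [flipX_apply]
  have h : |n - a - (n - c)| = |a - c| := by
    rw [show n - a - (n - c) = -(a - c) by ring, abs_neg]
  rw [h, sub_right_inj]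

lemma box_flipX (n a b c d : ℤ) :
    (box a b c d).map (flipX n).toEmbedding = box (n - b) (n - a) c d := by
  ext ⟨x, y⟩
  rw [mem_map_equiv, mem_box, mem_box]
  have : (flipX n).symm (x, y) = (n - x, y) := rfl
  rw [this]
  simp only
  omega

/-- mirror image of `XR` -/
def XL (n : ℤ) (ω : Finset (Sym2 (ℤ × ℤ))) : Prop :=
  ∃ x1 x0 y : ℤ, 0 ≤ x1 ∧ x1 ≤ n ∧ 0 ≤ x0 ∧ x0 ≤ n ∧ -n ≤ y ∧ y ≤ n ∧
    Joined (ω ∩ edgesIn (box 0 n 0 n)) (x1, n) (x0, 0) ∧ Joined ω (x1, n) (-n, y)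

lemma XL_up (n : ℤ) : Up (XL n) := by
  rintro S T h ⟨x1, x0, y, h1, h2, h3, h4, h5, h6, h7, h8⟩
  exact ⟨x1, x0, y, h1, h2, h3, h4, h5, h6, joined_mono (inter_subset_inter_right h) h7,
    joined_mono h h8⟩

theorem XL_prob (n : ℕ) (hn : 1 ≤ n) : 1/8 ≤ P (edgesIn (box (-n) n (-n) n)) (XL n) := by
  classical
  have h1 : edgesIn (box (-n) n (-n) n) = (edgesIn (box 0 (2*n:ℤ) (-n) n)).map (emb (flipX n)) := by
    rw [← edgesIn_map (flipX_iso n), box_flipX]
    congr 2 <;> ring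
  have h2 : (edgesIn (box 0 (n:ℤ) 0 n)).map (emb (flipX n)) = edgesIn (box 0 (n:ℤ) 0 n) := by
    rw [← edgesIn_map (flipX_iso n), box_flipX]
    congr 2 <;> ring
  rw [h1, P_map]
  refine (XR_prob n hn).trans (P_mono ?_)
  rintro S _ ⟨x1, x0, y, a1, a2, a3, a4, a5, a6, a7, a8⟩
  refine ⟨n - x1, n - x0, y, by omega, by omega, by omega, by omega, a5, a6, ?_, ?_⟩
  · have e2 : S.map (emb (flipX n)) ∩ edgesIn (box 0 (n:ℤ) 0 n)
        = (S ∩ edgesIn (box 0 (n:ℤ) 0 n)).map (emb (flipX n)) := by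
      rw [map_inter, h2]
    rw [e2]
    exact (joined_map (f := flipX n) (u := (x1, (n:ℤ))) (v := (x0, 0))).2 a7
  · have := (joined_map (f := flipX n) (ω := S) (u := (x1, (n:ℤ))) (v := (2 * (n:ℤ), y))).2 a8
    simp only [flipX_apply] at this
    have e : (n:ℤ) - 2 * n = -n := by ring
    rwa [e] at this

/-! ### crossing paths are joined -/

lemma joined_cross {ω : Finset (Sym2 (ℤ × ℤ))} {a b a' b' c d x x' y y' : ℤ} (hcd : c < d)
    (h1 : Joined (ω ∩ edgesIn (box a b c d)) (x, d) (x', c)) (hx : a ≤ x) (hx' : x ≤ b)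
    (h2 : Joined (ω ∩ edgesIn (box a' b' c d)) (a', y) (b', y')) (hy : c ≤ y) (hy' : y ≤ d)
    (ha : a' ≤ a) (hb : b ≤ b') :
    Joined ω (x, d) (a', y) ∧ Joined ω (x, d) (b', y') := by
  classical
  have hlat : ∀ S : Finset (ℤ × ℤ), ∀ e ∈ ω ∩ edgesIn S, e ∈ lattice.edgeSet := by
    intro S e he
    have := (mem_inter.1 he).2
    unfold edgesIn at this
    exact (mem_filter.1 this).2
  obtain ⟨p, hp⟩ := joined_walk (hlat _) h1
  obtain ⟨q, hq⟩ := joined_walk (hlat _) h2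
  have hps : ∀ w ∈ p.support, w ∈ box a b c d := by
    apply support_subset p (fun e he => (mem_inter.1 (hp e he)).2)
    rw [mem_box]; simp only; omega
  have hqs : ∀ w ∈ q.support, w ∈ box a' b' c d := by
    apply support_subset q (fun e he => (mem_inter.1 (hq e he)).2)
    rw [mem_box]; simp only; omega
  obtain ⟨w, hw1, hw2⟩ := crossing_walks p q hcd
    (fun w hw => by have := mem_box.1 (hqs w hw); simp only; omega)
    (fun w hw => by have := mem_box.1 (hps w hw); simp only; omega)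
    (fun w hw => by have := mem_box.1 (hps w hw); simp only; omega)
  have j1 : Joined ω (x, d) w := by
    apply walk_joined (p.takeUntil w hw1)
    intro e he
    exact (mem_inter.1 (hp e (p.edges_takeUntil_subset_edges hw1 he))).1
  have j2 : Joined ω (a', y) w := by
    apply walk_joined (q.takeUntil w hw2)
    intro e he
    exact (mem_inter.1 (hq e (q.edges_takeUntil_subset_edges hw2 he))).1
  have j3 : Joined ω w (b', y') := by
    apply walk_joined (q.dropUntil w hw2)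
    intro e he
    exact (mem_inter.1 (hq e (q.edges_dropUntil_subset_edges hw2 he))).1
  exact ⟨joined_trans j1 (joined_symm j2), joined_trans j1 j3⟩

theorem pLR_three_two (n : ℕ) (hn : 1 ≤ n) : 1/128 ≤ pLR (3*n) (2*n) := by
  classical
  have hb := perc_LR (-n) (2*n) (-n) n
  rw [Pool.Agent.Helper69.RSW.perc_half_eq] at hb
  have e0 : pLR (2*n - -(n:ℤ)) ((n:ℤ) - -n) = pLR (3*n) (2*n) := by
    congr 1 <;> ring
  rw [e0] at hb
  rw [← hb]
  set F := edgesIn (box (-n) (2*n:ℤ) (-n) n) with hF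
  set G1 := edgesIn (box 0 (2*n:ℤ) (-n) n) with hG1
  set G2 := edgesIn (box (-n) (n:ℤ) (-n) n) with hG2
  set G3 := edgesIn (box 0 (n:ℤ) 0 n) with hG3
  have s1 : G1 ⊆ F := edgesIn_mono (box_mono (by omega) le_rfl le_rfl le_rfl)
  have s2 : G2 ⊆ F := edgesIn_mono (box_mono le_rfl (by omega) le_rfl le_rfl)
  have s3 : G3 ⊆ F := edgesIn_mono (box_mono (by omega) (by omega) (by omega) le_rfl)
  have p1 : 1/8 ≤ P F (fun ω => XR n (ω ∩ G1)) := by
    rw [P_inter s1 (XR n)]; exact XR_prob n hn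
  have p2 : 1/8 ≤ P F (fun ω => XL n (ω ∩ G2)) := by
    rw [P_inter s2 (XL n)]; exact XL_prob n hn
  have p3 : 1/2 ≤ P F (fun ω => LR 0 n 0 n (ω ∩ G3)) := by
    rw [P_inter s3 (LR 0 n 0 n), hG3, ← Pool.Agent.Helper69.RSW.perc_half_eq, perc_LR]
    exact half_le_pLR (by omega) (by omega) (by omega)
  have u1 : Up (fun ω => XR n (ω ∩ G1)) := fun S T h h1 =>
    XR_up n _ _ (inter_subset_inter_right h) h1
  have u2 : Up (fun ω => XL n (ω ∩ G2)) := fun S T h h1 =>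
    XL_up n _ _ (inter_subset_inter_right h) h1
  have u3 : Up (fun ω => LR 0 n 0 n (ω ∩ G3)) := fun S T h h1 =>
    LR_up 0 n 0 n _ _ (inter_subset_inter_right h) h1
  have h12 := harris F u1 u2
  have h123 := harris F (u1.and u2) u3
  have hdet : P F (fun ω => (XR n (ω ∩ G1) ∧ XL n (ω ∩ G2)) ∧ LR 0 n 0 n (ω ∩ G3))
      ≤ P F (LR (-n) (2*n) (-n) n) := by
    apply P_mono
    rintro ω _ ⟨⟨⟨x1, x0, y, a1, a2, a3, a4, a5, a6, a7, a8⟩,
      ⟨z1, z0, t, b1, b2, b3, b4, b5, b6, b7, b8⟩⟩, ⟨l, r, c1, c2, c3, c4, c5⟩⟩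
    have a7' : Joined (ω ∩ G3) (x1, (n:ℤ)) (x0, 0) :=
      joined_mono (inter_subset_inter_right inter_subset_left) a7
    have b7' : Joined (ω ∩ G3) (z1, (n:ℤ)) (z0, 0) :=
      joined_mono (inter_subset_inter_right inter_subset_left) b7
    have j1 := (joined_cross (by omega) a7' a1 a2 c5 c1 c2 le_rfl le_rfl).1
    have j2 := (joined_cross (by omega) b7' b1 b2 c5 c1 c2 le_rfl le_rfl).1
    refine ⟨t, y, b5, b6, a5, a6, ?_⟩
    have k1 : Joined ω (z1, (n:ℤ)) (-(n:ℤ), t) := joined_mono inter_subset_left b8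
    have k2 : Joined ω (x1, (n:ℤ)) (2 * (n:ℤ), y) := joined_mono inter_subset_left a8
    exact joined_trans (joined_symm k1) (joined_trans j2 (joined_trans (joined_symm j1) k2))
  have q12 : 1/64 ≤ P F (fun ω => XR n (ω ∩ G1) ∧ XL n (ω ∩ G2)) := by nlinarith
  nlinarith

/-! ### longer boxes -/

theorem pLR_glue {a b h : ℤ} (hh : 1 ≤ h) (ha : h ≤ a) (hb : h ≤ b) :
    pLR a h * pLR b h * (1/2) ≤ pLR (a + b - h) h := by
  classical
  have hB := perc_LR 0 (a + b - h) 0 h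
  rw [Pool.Agent.Helper69.RSW.perc_half_eq, sub_zero, sub_zero] at hB
  rw [← hB]
  set F := edgesIn (box 0 (a+b-h) 0 h) with hF
  set G1 := edgesIn (box 0 a 0 h) with hG1
  set G2 := edgesIn (box (a-h) (a+b-h) 0 h) with hG2
  set G3 := edgesIn (box (a-h) a 0 h) with hG3
  have s1 : G1 ⊆ F := edgesIn_mono (box_mono le_rfl (by omega) le_rfl le_rfl)
  have s2 : G2 ⊆ F := edgesIn_mono (box_mono (by omega) le_rfl le_rfl le_rfl)
  have s3 : G3 ⊆ F := edgesIn_mono (box_mono (by omega) (by omega) le_rfl le_rfl)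
  have p1 : P F (fun ω => LR 0 a 0 h (ω ∩ G1)) = pLR a h := by
    rw [P_inter s1 (LR 0 a 0 h), hG1, ← Pool.Agent.Helper69.RSW.perc_half_eq, perc_LR]
    congr 1 <;> ring
  have p2 : P F (fun ω => LR (a-h) (a+b-h) 0 h (ω ∩ G2)) = pLR b h := by
    rw [P_inter s2 (LR (a-h) (a+b-h) 0 h), hG2, ← Pool.Agent.Helper69.RSW.perc_half_eq, perc_LR]
    congr 1 <;> ring
  have p3 : 1/2 ≤ P F (fun ω => BT (a-h) a 0 h (ω ∩ G3)) := by
    rw [P_inter s3 (BT (a-h) a 0 h), hG3, ← Pool.Agent.Helper69.RSW.perc_half_eq, perc_BT]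
    exact half_le_pLR (by omega) (by omega) (by omega)
  have u1 : Up (fun ω => LR 0 a 0 h (ω ∩ G1)) := fun S T h h1 =>
    LR_up _ _ _ _ _ _ (inter_subset_inter_right h) h1
  have u2 : Up (fun ω => LR (a-h) (a+b-h) 0 h (ω ∩ G2)) := fun S T h h1 =>
    LR_up _ _ _ _ _ _ (inter_subset_inter_right h) h1
  have u3 : Up (fun ω => BT (a-h) a 0 h (ω ∩ G3)) := fun S T h h1 =>
    BT_up _ _ _ _ _ _ (inter_subset_inter_right h) h1
  have h12 := harris F u1 u2
  have h123 := harris F (u1.and u2) u3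
  have hdet : P F (fun ω => (LR 0 a 0 h (ω ∩ G1) ∧ LR (a-h) (a+b-h) 0 h (ω ∩ G2)) ∧
      BT (a-h) a 0 h (ω ∩ G3)) ≤ P F (LR 0 (a+b-h) 0 h) := by
    apply P_mono
    rintro ω _ ⟨⟨⟨l1, r1, a1, a2, a3, a4, a5⟩, ⟨l2, r2, b1, b2, b3, b4, b5⟩⟩,
      ⟨x, x', c1, c2, c3, c4, c5⟩⟩
    have c5' := joined_symm c5
    have j1 := (joined_cross (by omega) c5' c3 c4 a5 a1 a2 (by omega) le_rfl).1
    have j2 := (joined_cross (by omega) c5' c3 c4 b5 b1 b2 le_rfl (by omega)).2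
    exact ⟨l1, r2, a1, a2, b3, b4, joined_trans (joined_symm j1) j2⟩
  rw [p1, p2] at h12
  have q12 := P_nonneg F (fun ω => LR 0 a 0 h (ω ∩ G1) ∧ LR (a-h) (a+b-h) 0 h (ω ∩ G2))
  have q1 : 0 ≤ pLR a h := by rw [← p1]; exact P_nonneg _ _
  have q2 : 0 ≤ pLR b h := by rw [← p2]; exact P_nonneg _ _
  nlinarith [mul_nonneg q1 q2]

lemma pLR_nonneg (m n : ℤ) : 0 ≤ pLR m n := by
  unfold pLR
  rw [Pool.Agent.Helper69.RSW.perc_half_eq]
  exact P_nonneg _ _

/-- monotonicity in the height -/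
lemma pLR_mono_height {m n n' : ℤ} (h : n ≤ n') : pLR m n ≤ pLR m n' := by
  unfold pLR
  rw [Pool.Agent.Helper69.RSW.perc_half_eq, Pool.Agent.Helper69.RSW.perc_half_eq]
  have hs : edgesIn (box 0 m 0 n) ⊆ edgesIn (box 0 m 0 n') :=
    edgesIn_mono (box_mono le_rfl le_rfl le_rfl h)
  rw [← P_inter hs (LR 0 m 0 n)]
  apply P_mono
  rintro ω _ ⟨y, y', h1, h2, h3, h4, h5⟩
  exact ⟨y, y', h1, by omega, h3, by omega, joined_mono inter_subset_left h5⟩

theorem pLR_long (n : ℕ) (hn : 1 ≤ n) (j : ℕ) :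
    (1/256 : ℝ) ^ (j+1) ≤ pLR ((j+3)*n) (2*n) := by
  induction j with
  | zero =>
    have := pLR_three_two n hn
    simp only [Nat.cast_zero, zero_add, pow_one]
    linarith
  | succ j ih =>
    have h1 := pLR_glue (a := ((j:ℤ)+3)*n) (b := 3*n) (h := 2*n) (by omega)
      (by nlinarith [(Int.natCast_nonneg j), (Int.natCast_nonneg n)]) (by omega)
    have e1 : ((j:ℤ)+3)*n + 3*n - 2*n = (((j+1:ℕ):ℤ)+3)*n := by push_cast; ring
    rw [e1] at h1
    have h2 := pLR_three_two n hn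
    have h3 : (0:ℝ) ≤ (1/256 : ℝ)^(j+1) := by positivity
    calc (1/256 : ℝ) ^ (j+1+1) = (1/256)^(j+1) * (1/128) * (1/2) := by rw [pow_succ]; ring
      _ ≤ pLR (((j:ℤ)+3)*n) (2*n) * pLR (3*n) (2*n) * (1/2) := by
          apply mul_le_mul_of_nonneg_right _ (by norm_num)
          exact mul_le_mul ih h2 (by norm_num) (pLR_nonneg _ _)
      _ ≤ _ := h1

/-- every box is crossed with positive probability -/
lemma pLR_pos {m n : ℤ} (hm : 0 ≤ m) (hn : 0 ≤ n) : 0 < pLR m n := by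
  classical
  unfold pLR
  rw [Pool.Agent.Helper69.RSW.perc_half_eq]
  unfold Pool.Agent.Helper69.RSW.P
  apply div_pos _ (by positivity)
  rw [Nat.cast_pos, card_pos]
  refine ⟨edgesIn (box 0 m 0 n), ?_⟩
  rw [mem_filter, mem_powerset]
  refine ⟨subset_rfl, 0, 0, le_rfl, hn, le_rfl, hn, ?_⟩
  obtain ⟨k, rfl⟩ := Int.eq_ofNat_of_zero_le hm
  have : ∀ i : ℕ, i ≤ k → Joined (edgesIn (box 0 (k:ℤ) 0 n)) (0, 0) ((i:ℤ), 0) := by
    intro i
    induction i with
    | zero => intro _; exact joined_refl _ _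
    | succ i ih =>
      intro hi
      refine joined_trans (ih (by omega)) (joined_edge ?_)
      have := (hE_mem (S := box 0 (k:ℤ) 0 n) (i := i) (j := 0)).2
        ⟨by rw [mem_box]; simp only; omega, by rw [mem_box]; simp only; omega⟩
      unfold hE at this
      push_cast
      exact this
  exact this k le_rfl

/-- **RSW**: boxes `[0,kn] × [0,n]` are crossed with probability bounded away from `0`. -/
theorem rsw_pLR (k : ℕ) : ∃ c : ℝ, 0 < c ∧ ∀ n : ℕ, 1 ≤ n → c ≤ pLR (k*n) n := by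
  refine ⟨min ((1/256 : ℝ) ^ (3*k+1)) (pLR k 1), lt_min (by positivity)
    (pLR_pos (by omega) (by omega)), ?_⟩
  intro n hn
  rcases Nat.lt_or_ge n 2 with h | h
  · have : n = 1 := by omega
    subst this
    refine (min_le_right _ _).trans ?_
    simp
  · refine (min_le_left _ _).trans ?_
    obtain ⟨m, hm⟩ : ∃ m, n / 2 = m := ⟨_, rfl⟩
    have hm1 : 1 ≤ m := by omega
    have h1 := pLR_long m hm1 (3*k)
    refine h1.trans ?_
    have h2 : 2 * (m:ℤ) ≤ n := by omega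
    refine (pLR_mono_height h2).trans ?_
    apply pLR_anti (by positivity)
    have h3 : (n:ℤ) ≤ 3 * m := by omega
    have h4 : (0:ℤ) ≤ k := Int.natCast_nonneg k
    have h5 : (0:ℤ) ≤ m := Int.natCast_nonneg m
    push_cast
    nlinarith [mul_le_mul_of_nonneg_left h3 h4]

theorem rsw (k : ℕ) : ∃ c : ℝ, 0 < c ∧ ∀ n : ℕ, 1 ≤ n → ∀ a b : ℤ,
    c ≤ perc half (box a (a+k*n) b (b+n)) (LR a (a+k*n) b (b+n)) ∧
    c ≤ perc half (box a (a+n) b (b+k*n)) (BT a (a+n) b (b+k*n)) := by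
  obtain ⟨c, hc, h⟩ := rsw_pLR k
  refine ⟨c, hc, fun n hn a b => ⟨?_, ?_⟩⟩
  · rw [perc_LR]
    have e1 : a + k*n - a = k*n := by ring
    have e2 : b + (n:ℤ) - b = n := by ring
    rw [e1, e2]
    exact h n hn
  · rw [perc_BT]
    have e1 : b + k*n - b = k*n := by ring
    have e2 : a + (n:ℤ) - a = n := by ring
    rw [e1, e2]
    exact h n hn

end H47Perc.H46
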