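import Pool.Agent.Helper47.Perc.Duality2
import Pool.Agent.Helper26.Perc.Planar

/-!
RSW, part 1: the dual cluster of the left side of a square and the open walk in its boundary.
-/

namespace H47Perc.H46
open Finset SimpleGraph
open Pool.Agent.Helper69.RSW (P P_mono P_map P_restrict P_congr Dep)

/-- faces used by dual crossings of the square `[0,n]²` -/
noncomputable def faces (n : ℤ) : Finset (ℤ × ℤ) := box (-1) n 0 (n-1)

lemma mem_faces {n : ℤ} {f : ℤ × ℤ} :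
    f ∈ faces n ↔ -1 ≤ f.1 ∧ f.1 ≤ n ∧ 0 ≤ f.2 ∧ f.2 ≤ n - 1 := mem_box

/-- dual step through a closed edge -/
def DStep (n : ℤ) (ω : Finset (Sym2 (ℤ × ℤ))) (f g : ℤ × ℤ) : Prop :=
  lattice.Adj f g ∧ f ∈ faces n ∧ g ∈ faces n ∧ crossEdge f g ∈ edgesIn (box 0 n 0 n) ∧
    crossEdge f g ∉ ω

/-- joined to the left column by dual steps -/
def InW (n : ℤ) (ω : Finset (Sym2 (ℤ × ℤ))) (g : ℤ × ℤ) : Prop :=
  ∃ j, ((-1 : ℤ), j) ∈ faces n ∧ Relation.ReflTransGen (DStep n ω) (-1, j) g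

open Classical in
/-- the dual cluster of the left side -/
noncomputable def DW (n : ℤ) (ω : Finset (Sym2 (ℤ × ℤ))) : Finset (ℤ × ℤ) :=
  (faces n).filter (InW n ω)

lemma mem_DW {n : ℤ} {ω : Finset (Sym2 (ℤ × ℤ))} {g : ℤ × ℤ} :
    g ∈ DW n ω ↔ g ∈ faces n ∧ InW n ω g := by
  classical
  unfold DW
  rw [mem_filter]

lemma DW_left {n : ℤ} {ω : Finset (Sym2 (ℤ × ℤ))} {j : ℤ} (h : ((-1 : ℤ), j) ∈ faces n) :
    ((-1 : ℤ), j) ∈ DW n ω :=
  mem_DW.2 ⟨h, j, h, Relation.ReflTransGen.refl⟩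

lemma DW_step {n : ℤ} {ω : Finset (Sym2 (ℤ × ℤ))} {f g : ℤ × ℤ} (hf : f ∈ DW n ω)
    (h : DStep n ω f g) : g ∈ DW n ω := by
  obtain ⟨_, j, hj, hp⟩ := mem_DW.1 hf
  exact mem_DW.2 ⟨h.2.2.1, j, hj, hp.tail h⟩

open Classical in
/-- the explored edges -/
noncomputable def Ex (n : ℤ) (D : Finset (ℤ × ℤ)) : Finset (Sym2 (ℤ × ℤ)) :=
  (edgesIn (box 0 n 0 n)).filter
    (fun e => ∃ f ∈ D, ∃ g ∈ faces n, lattice.Adj f g ∧ crossEdge f g = e)

lemma mem_Ex {n : ℤ} {D : Finset (ℤ × ℤ)} {e : Sym2 (ℤ × ℤ)} :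
    e ∈ Ex n D ↔ e ∈ edgesIn (box 0 n 0 n) ∧
      ∃ f ∈ D, ∃ g ∈ faces n, lattice.Adj f g ∧ crossEdge f g = e := by
  classical
  unfold Ex
  rw [mem_filter]

lemma DW_congr {n : ℤ} {ω ω' : Finset (Sym2 (ℤ × ℤ))}
    (h : ∀ e ∈ Ex n (DW n ω), (e ∈ ω ↔ e ∈ ω')) : DW n ω' = DW n ω := by
  apply Subset.antisymm
  · intro g hg
    obtain ⟨_, j, hj, hp⟩ := mem_DW.1 hg
    clear hg
    induction hp with
    | refl => exact DW_left hj
    | @tail f g _ hfg ih =>
      refine DW_step (ih hfg.2.1) ⟨hfg.1, hfg.2.1, hfg.2.2.1, hfg.2.2.2.1, ?_⟩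
      intro h1
      exact hfg.2.2.2.2 ((h _ (mem_Ex.2 ⟨hfg.2.2.2.1, f, ih hfg.2.1, g, hfg.2.2.1, hfg.1, rfl⟩)).1 h1)
  · intro g hg
    obtain ⟨hgf, j, hj, hp⟩ := mem_DW.1 hg
    refine mem_DW.2 ⟨hgf, j, hj, ?_⟩
    clear hg hgf
    induction hp with
    | refl => exact Relation.ReflTransGen.refl
    | @tail f g hpf hfg ih =>
      refine ih.tail ⟨hfg.1, hfg.2.1, hfg.2.2.1, hfg.2.2.2.1, ?_⟩
      intro h1
      have hf : f ∈ DW n ω := mem_DW.2 ⟨hfg.2.1, j, hj, hpf⟩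
      exact hfg.2.2.2.2 ((h _ (mem_Ex.2 ⟨hfg.2.2.2.1, f, hf, g, hfg.2.2.1, hfg.1, rfl⟩)).2 h1)

/-- the event that the dual cluster is `D` depends only on the explored edges of `D` -/
lemma dep_DW (n : ℤ) (D : Finset (ℤ × ℤ)) : Dep (Ex n D) (fun ω => DW n ω = D) := by
  intro S
  constructor
  · intro h
    have h1 : DW n (S ∩ Ex n D) = DW n S := by
      apply DW_congr
      intro e he
      rw [h] at he
      rw [mem_inter]
      exact ⟨fun h => ⟨h, he⟩, fun h => h.1⟩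
    exact h1.trans h
  · intro h
    have h1 : DW n S = DW n (S ∩ Ex n D) := by
      apply DW_congr
      intro e he
      rw [h] at he
      rw [mem_inter]
      exact ⟨fun h => h.1, fun h => ⟨h, he⟩⟩
    exact h1.trans h

open Classical in
/-- the edges between `D` and its complement -/
noncomputable def Bd (n : ℤ) (D : Finset (ℤ × ℤ)) : Finset (Sym2 (ℤ × ℤ)) :=
  (edgesIn (box 0 n 0 n)).filter
    (fun e => ∃ f ∈ D, ∃ g ∈ faces n, g ∉ D ∧ lattice.Adj f g ∧ crossEdge f g = e)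

lemma mem_Bd {n : ℤ} {D : Finset (ℤ × ℤ)} {e : Sym2 (ℤ × ℤ)} :
    e ∈ Bd n D ↔ e ∈ edgesIn (box 0 n 0 n) ∧
      ∃ f ∈ D, ∃ g ∈ faces n, g ∉ D ∧ lattice.Adj f g ∧ crossEdge f g = e := by
  classical
  unfold Bd
  rw [mem_filter]

lemma Bd_DW (n : ℤ) (ω : Finset (Sym2 (ℤ × ℤ))) : Bd n (DW n ω) ⊆ ω := by
  intro e he
  obtain ⟨h1, f, hf, g, hg, hgD, hadj, rfl⟩ := mem_Bd.1 he
  by_contra h
  exact hgD (DW_step hf ⟨hadj, (mem_DW.1 hf).1, hg, h1, h⟩)

/-! ### the open walk in the boundary -/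

theorem count_down (n : ℕ) (hn : 1 ≤ n) (φ K : ℕ → ℕ → ZMod 2)
    (hφ0 : ∀ j < n, φ 0 j = 1) (hφ1 : ∀ j < n, φ (n+1) j = 0) (hK : ∀ x ≤ n, K x n = 1)
    (V : ∀ x ≤ n, ∀ j < n, (φ x j + φ (x+1) j) * (K x j + K x (j+1)) = 0)
    (H : ∀ x < n, ∀ j, j + 1 < n → (φ (x+1) j + φ (x+1) (j+1)) * (K x (j+1) + K (x+1) (j+1)) = 0) :
    ∃ x ≤ n, K x 0 = 1 := by
  have two : (1 : ZMod 2) + 1 = 0 := by decide
  -- `T j`
  have hT : ∀ j, j + 1 < n → ∑ x ∈ range (n+1), K x (j+1) * (φ x (j+1) + φ (x+1) (j+1))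
      = ∑ x ∈ range (n+1), K x j * (φ x j + φ (x+1) j) := by
    intro j hj
    have e1 : ∑ x ∈ range (n+1), K x j * (φ x j + φ (x+1) j)
        = ∑ x ∈ range (n+1), K x (j+1) * (φ x j + φ (x+1) j) := by
      apply sum_congr rfl
      intro x hx
      rw [mem_range] at hx
      have h1 := V x (by omega) j (by omega)
      have h2 := zmod2_add_self (K x (j+1) * (φ x j + φ (x+1) j))
      linear_combination h1 - h2
    rw [e1]
    have e2 := abel2 (fun x => K x (j+1)) (fun x => φ x j + φ x (j+1)) n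
    rw [hφ0 j (by omega), hφ0 (j+1) hj, hφ1 j (by omega), hφ1 (j+1) hj] at e2
    have e3 : ∑ x ∈ range n, (K (x+1) (j+1) + K x (j+1)) * (φ (x+1) j + φ (x+1) (j+1)) = 0 := by
      apply sum_eq_zero
      intro x hx
      rw [mem_range] at hx
      have := H x hx j hj
      linear_combination this
    rw [e3, two, mul_zero, add_zero, mul_zero, add_zero] at e2
    have e4 : ∑ x ∈ range (n+1), K x (j+1) * (φ x j + φ x (j+1) + (φ (x+1) j + φ (x+1) (j+1)))
        = ∑ x ∈ range (n+1), K x (j+1) * (φ x (j+1) + φ (x+1) (j+1))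
          + ∑ x ∈ range (n+1), K x (j+1) * (φ x j + φ (x+1) j) := by
      rw [← sum_add_distrib]
      exact sum_congr rfl (fun x _ => by ring)
    rw [e4] at e2
    have h2 := zmod2_add_self (∑ x ∈ range (n+1), K x (j+1) * (φ x j + φ (x+1) j))
    linear_combination e2 - h2
  have hT2 : ∀ j, j < n → ∑ x ∈ range (n+1), K x j * (φ x j + φ (x+1) j)
      = ∑ x ∈ range (n+1), K x 0 * (φ x 0 + φ (x+1) 0) := by
    intro j
    induction j with
    | zero => intro _; rfl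
    | succ j ih => intro hj; rw [hT j hj, ih (by omega)]
  have hlast : ∑ x ∈ range (n+1), K x (n-1) * (φ x (n-1) + φ (x+1) (n-1)) = 1 := by
    have e1 : ∑ x ∈ range (n+1), K x (n-1) * (φ x (n-1) + φ (x+1) (n-1))
        = ∑ x ∈ range (n+1), (φ x (n-1) + φ (x+1) (n-1)) := by
      apply sum_congr rfl
      intro x hx
      rw [mem_range] at hx
      have h1 := V x (by omega) (n-1) (by omega)
      have e : n - 1 + 1 = n := by omega
      rw [e, hK x (by omega)] at h1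
      have h2 := zmod2_add_self (φ x (n-1) + φ (x+1) (n-1))
      linear_combination h1 - h2
    rw [e1, tel2 (fun x => φ x (n-1)), hφ0 _ (by omega), hφ1 _ (by omega), add_zero]
  rw [hT2 (n-1) (by omega)] at hlast
  by_contra hcon
  push Not at hcon
  have hz : ∑ x ∈ range (n+1), K x 0 * (φ x 0 + φ (x+1) 0) = 0 := by
    apply sum_eq_zero
    intro x hx
    rw [mem_range] at hx
    have h1 := hcon x (by omega)
    have h2 : K x 0 = 0 := by
      generalize K x 0 = k at h1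
      revert k
      decide
    rw [h2, zero_mul]
  rw [hz] at hlast
  exact absurd hlast (by decide)

lemma crossEdge_hor {i j : ℤ} : crossEdge (i, j) (i + 1, j) = vE (i + 1) j := by
  unfold crossEdge vE
  rw [if_pos rfl]
  simp

lemma crossEdge_vert {i j : ℤ} : crossEdge (i, j) (i, j + 1) = hE i (j + 1) := by
  unfold crossEdge hE
  rw [if_neg (by simp)]
  simp

lemma adj_hor (i j : ℤ) : lattice.Adj (i, j) (i + 1, j) := by
  right; simp

lemma adj_vert (i j : ℤ) : lattice.Adj (i, j) (i, j + 1) := by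
  left; simp

/-- the boundary of a set of faces that contains the left column and misses the right column
contains a path from the top row to the bottom row -/
theorem bd_joined (n : ℕ) (hn : 1 ≤ n) (D : Finset (ℤ × ℤ))
    (hD0 : ∀ j : ℤ, 0 ≤ j → j < n → ((-1 : ℤ), j) ∈ D) (hD1 : ∀ j : ℤ, ((n : ℤ), j) ∉ D) :
    ∃ x1 x0 : ℤ, 0 ≤ x1 ∧ x1 ≤ n ∧ 0 ≤ x0 ∧ x0 ≤ n ∧ Joined (Bd n D) (x1, n) (x0, 0) := by
  classical
  let φ : ℕ → ℕ → ZMod 2 := fun i j => par (((i : ℤ) - 1, (j : ℤ)) ∈ D)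
  let KK : ℤ × ℤ → Prop := fun z => ∃ x1 : ℤ, 0 ≤ x1 ∧ x1 ≤ n ∧ Joined (Bd n D) (x1, n) z
  have hKK : ∀ u v : ℤ × ℤ, s(u, v) ∈ Bd n D → (KK u ↔ KK v) := by
    intro u v h
    constructor
    · rintro ⟨x1, h0, h1, h2⟩
      exact ⟨x1, h0, h1, joined_trans h2 (joined_edge h)⟩
    · rintro ⟨x1, h0, h1, h2⟩
      exact ⟨x1, h0, h1, joined_trans h2 (joined_symm (joined_edge h))⟩
  let K : ℕ → ℕ → ZMod 2 := fun x y => par (KK ((x : ℤ), (y : ℤ)))
  -- a face change gives a boundary edge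
  have key : ∀ f g : ℤ × ℤ, lattice.Adj f g → f ∈ faces n → g ∈ faces n →
      crossEdge f g ∈ edgesIn (box 0 n 0 n) → par (f ∈ D) + par (g ∈ D) = 0 ∨
        crossEdge f g ∈ Bd n D := by
    intro f g hadj hf hg he
    by_cases h1 : f ∈ D <;> by_cases h2 : g ∈ D
    · left; rw [par_true h1, par_true h2]; decide
    · right
      exact mem_Bd.2 ⟨he, f, h1, g, hg, h2, hadj, rfl⟩
    · right
      refine mem_Bd.2 ⟨he, g, h2, f, hf, h1, hadj.symm, ?_⟩
      exact (crossEdge_comm hadj).symm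
    · left; rw [par_false h1, par_false h2]; decide
  have a1 : ∀ j < n, φ 0 j = 1 := by
    intro j hj
    simp only [φ]
    apply par_true
    have := hD0 j (by omega) (by omega)
    simpa using this
  have a2 : ∀ j < n, φ (n+1) j = 0 := by
    intro j hj
    simp only [φ]
    apply par_false
    have := hD1 j
    push_cast
    rwa [add_sub_cancel_right]
  have a3 : ∀ x ≤ n, K x n = 1 := by
    intro x hx
    simp only [K]
    apply par_true
    exact ⟨x, by omega, by omega, joined_refl _ _⟩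
  have a4 : ∀ x ≤ n, ∀ j < n, (φ x j + φ (x+1) j) * (K x j + K x (j+1)) = 0 := by
    intro x hx j hj
    simp only [φ, K]
    push_cast
    rw [add_sub_cancel_right]
    have hc : crossEdge ((x : ℤ) - 1, (j : ℤ)) ((x : ℤ), (j : ℤ)) = vE x j := by
      have := crossEdge_hor (i := (x : ℤ) - 1) (j := j)
      rwa [sub_add_cancel] at this
    have hadj : lattice.Adj ((x : ℤ) - 1, (j : ℤ)) ((x : ℤ), (j : ℤ)) := by
      have := adj_hor ((x : ℤ) - 1) j
      rwa [sub_add_cancel] at this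
    rcases key ((x : ℤ) - 1, (j : ℤ)) ((x : ℤ), (j : ℤ)) hadj
      (by rw [mem_faces]; simp only; omega) (by rw [mem_faces]; simp only; omega)
      (by rw [hc, vE_mem, mem_box, mem_box]; simp only; omega) with h | h
    · rw [h, zero_mul]
    · rw [hc] at h
      have h1 := hKK _ _ h
      have h2 : par (KK ((x : ℤ), (j : ℤ))) = par (KK ((x : ℤ), (j : ℤ) + 1)) := by
        rw [eq_iff_iff.2 h1]
      rw [h2, zmod2_add_self, mul_zero]
  have a5 : ∀ x < n, ∀ j, j + 1 < n →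
      (φ (x+1) j + φ (x+1) (j+1)) * (K x (j+1) + K (x+1) (j+1)) = 0 := by
    intro x hx j hj
    simp only [φ, K]
    push_cast
    rw [add_sub_cancel_right]
    have hc : crossEdge ((x : ℤ), (j : ℤ)) ((x : ℤ), (j : ℤ) + 1) = hE x (j+1) := crossEdge_vert
    rcases key ((x : ℤ), (j : ℤ)) ((x : ℤ), (j : ℤ) + 1) (adj_vert _ _)
      (by rw [mem_faces]; simp only; omega) (by rw [mem_faces]; simp only; omega)
      (by rw [hc, hE_mem, mem_box, mem_box]; simp only; omega) with h | h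
    · rw [h, zero_mul]
    · rw [hc] at h
      have h1 := hKK _ _ h
      have h2 : par (KK ((x : ℤ), (j : ℤ) + 1)) = par (KK ((x : ℤ) + 1, (j : ℤ) + 1)) := by
        rw [eq_iff_iff.2 h1]
      rw [h2, zmod2_add_self, mul_zero]
  obtain ⟨x, hx, hK0⟩ := count_down n hn φ K a1 a2 a3 a4 a5
  have h1 : KK ((x : ℤ), 0) := by
    rcases par_cases (KK ((x : ℤ), ((0 : ℕ) : ℤ))) with h | h
    · exact h.1
    · exfalso
      have : K x 0 = 0 := h.2
      rw [this] at hK0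
      exact absurd hK0 (by decide)
  obtain ⟨x1, h2, h3, h4⟩ := h1
  exact ⟨x1, x, h2, h3, by omega, by omega, h4⟩

end H47Perc.H46
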