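import Pool.Agent.Helper46.RSW.Cluster

/-!
RSW, part 2: the doubled walk and the unexplored side of it.
-/

namespace H47Perc.H46
open Finset SimpleGraph
open Pool.Agent.Helper69.RSW (P P_mono P_map P_restrict P_congr Dep)

/-- reflection in the `x` axis -/
def flipY : ℤ × ℤ ≃ ℤ × ℤ where
  toFun z := (z.1, -z.2)
  invFun z := (z.1, -z.2)
  left_inv z := by simp
  right_inv z := by simp

@[simp] lemma flipY_apply (z : ℤ × ℤ) : flipY z = (z.1, -z.2) := rfl

lemma flipY_flipY (z : ℤ × ℤ) : flipY (flipY z) = z := by simp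

lemma flipY_iso : IsIso flipY := by
  rintro ⟨a, b⟩ ⟨c, d⟩
  unfold lattice
  simp only [flipY_apply]
  have h : |-b - -d| = |b - d| := by
    rw [show -b - -d = -(b - d) by ring, abs_neg]
  rw [h, neg_inj]

/-- reflection as a graph homomorphism -/
def flipHom : lattice →g lattice := ⟨flipY, fun {a b} h => (flipY_iso a b).2 h⟩

lemma flipHom_apply (z : ℤ × ℤ) : flipHom z = flipY z := rfl

/-- the walk followed by its mirror image -/
lemma double_walk {x1 x0 n : ℤ} (p1 : lattice.Walk (x1, n) (x0, 0)) :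
    ∃ p : lattice.Walk (x1, n) (x1, -n),
      (∀ e, e ∈ p.edges ↔ (e ∈ p1.edges ∨ ∃ e' ∈ p1.edges, emb flipY e' = e)) ∧
      (∀ w, w ∈ p.support ↔ (w ∈ p1.support ∨ ∃ w' ∈ p1.support, flipY w' = w)) := by
  have e0 : flipHom (x0, 0) = ((x0, 0) : ℤ × ℤ) := by rw [flipHom_apply]; simp
  have e1 : flipHom (x1, n) = ((x1, -n) : ℤ × ℤ) := by rw [flipHom_apply]; simp
  refine ⟨p1.append (((p1.map flipHom).copy e1 e0).reverse), ?_, ?_⟩
  · intro e
    rw [Walk.edges_append, List.mem_append, Walk.edges_reverse, List.mem_reverse,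
      Walk.edges_copy, Walk.edges_map, List.mem_map]
    rfl
  · intro w
    rw [Walk.mem_support_append_iff, Walk.support_reverse, List.mem_reverse,
      Walk.support_copy, Walk.support_map, List.mem_map]
    rfl

/-- reflected face -/
def rf (f : ℤ × ℤ) : ℤ × ℤ := (f.1, -1 - f.2)

lemma rf_adj {f g : ℤ × ℤ} (h : lattice.Adj f g) : lattice.Adj (rf f) (rf g) := by
  obtain ⟨a, b⟩ := f
  obtain ⟨c, d⟩ := g
  unfold lattice rf at *
  simp only at *
  rcases h with ⟨h1, h2⟩ | ⟨h1, h2⟩
  · left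
    refine ⟨h1, ?_⟩
    rw [show -1 - b - (-1 - d) = -(b - d) by ring, abs_neg]
    exact h2
  · right
    exact ⟨by rw [h1], h2⟩

lemma crossEdge_rf {f g : ℤ × ℤ} (h : lattice.Adj f g) :
    crossEdge (rf f) (rf g) = emb flipY (crossEdge f g) := by
  rcases adj_edge_cases h with ⟨x, y, _, (⟨rfl, rfl⟩ | ⟨rfl, rfl⟩)⟩ | ⟨x, y, _, (⟨rfl, rfl⟩ | ⟨rfl, rfl⟩)⟩
  · unfold crossEdge rf
    rw [if_neg (by simp), if_neg (by simp), emb_mk]
    simp only [flipY_apply]
    have e1 : max (-1 - y) (-1 - (y+1)) = -(max y (y+1)) := by omega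
    rw [e1]
  · unfold crossEdge rf
    rw [if_neg (by simp), if_neg (by simp), emb_mk]
    simp only [flipY_apply]
    have e1 : max (-1 - (y+1)) (-1 - y) = -(max (y+1) y) := by omega
    rw [e1]
  · unfold crossEdge rf
    rw [if_pos rfl, if_pos rfl, emb_mk]
    simp only [flipY_apply]
    rw [Sym2.eq_swap]
    have e1 : -1 - y + 1 = -y := by ring
    have e2 : -1 - y = -(y+1) := by ring
    rw [e1, e2]
  · unfold crossEdge rf
    rw [if_pos rfl, if_pos rfl, emb_mk]
    simp only [flipY_apply]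
    rw [Sym2.eq_swap]
    have e1 : -1 - y + 1 = -y := by ring
    have e2 : -1 - y = -(y+1) := by ring
    rw [e1, e2]

/-- endpoints of a crossed edge -/
lemma mem_crossEdge {f g w : ℤ × ℤ} (h : lattice.Adj f g) (hw : w ∈ crossEdge f g) :
    (f.1 = w.1 ∨ f.1 = w.1 - 1) ∧ (f.2 = w.2 ∨ f.2 = w.2 - 1) := by
  rcases adj_edge_cases h with ⟨x, y, _, (⟨rfl, rfl⟩ | ⟨rfl, rfl⟩)⟩ | ⟨x, y, _, (⟨rfl, rfl⟩ | ⟨rfl, rfl⟩)⟩
  · unfold crossEdge at hw
    rw [if_neg (by simp), Sym2.mem_iff] at hw
    rcases hw with rfl | rfl <;> constructor <;> simp only [true_or, or_true] <;> omega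
  · unfold crossEdge at hw
    rw [if_neg (by simp), Sym2.mem_iff] at hw
    rcases hw with rfl | rfl <;> constructor <;> simp only [true_or, or_true] <;> omega
  · unfold crossEdge at hw
    rw [if_pos rfl, Sym2.mem_iff] at hw
    rcases hw with rfl | rfl <;> constructor <;> simp only [true_or, or_true] <;> omega
  · unfold crossEdge at hw
    rw [if_pos rfl, Sym2.mem_iff] at hw
    rcases hw with rfl | rfl <;> constructor <;> simp only [true_or, or_true] <;> omega

/-- an edge crossed between two faces of rows `≥ 0` has an endpoint in a row `≥ 1` -/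
lemma crossEdge_top {f g : ℤ × ℤ} (h : lattice.Adj f g) (hf : 0 ≤ f.2) (hg : 0 ≤ g.2) :
    ∃ w ∈ crossEdge f g, 1 ≤ w.2 := by
  rcases adj_edge_cases h with ⟨x, y, _, (⟨rfl, rfl⟩ | ⟨rfl, rfl⟩)⟩ | ⟨x, y, _, (⟨rfl, rfl⟩ | ⟨rfl, rfl⟩)⟩
  · unfold crossEdge
    rw [if_neg (by simp)]
    simp only at hf hg
    exact ⟨_, Sym2.mem_mk_left _ _, by simp only; omega⟩
  · unfold crossEdge
    rw [if_neg (by simp)]
    simp only at hf hg
    exact ⟨_, Sym2.mem_mk_left _ _, by simp only; omega⟩
  · unfold crossEdge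
    rw [if_pos rfl]
    simp only at hf hg
    exact ⟨_, Sym2.mem_mk_right _ _, by simp only; omega⟩
  · unfold crossEdge
    rw [if_pos rfl]
    simp only at hf hg
    exact ⟨_, Sym2.mem_mk_right _ _, by simp only; omega⟩

lemma mem_emb {f : ℤ × ℤ ≃ ℤ × ℤ} {e : Sym2 (ℤ × ℤ)} {w : ℤ × ℤ} (h : w ∈ e) :
    f w ∈ emb f e := by
  induction e using Sym2.ind with
  | _ u v =>
    rw [emb_mk, Sym2.mem_iff]
    rw [Sym2.mem_iff] at h
    rcases h with rfl | rfl
    · left; rfl
    · right; rfl

lemma mem_of_mem_edgesIn {S : Finset (ℤ × ℤ)} {e : Sym2 (ℤ × ℤ)} (he : e ∈ edgesIn S)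
    {w : ℤ × ℤ} (h : w ∈ e) : w ∈ S := by
  induction e using Sym2.ind with
  | _ u v =>
    rw [mem_edgesIn] at he
    rw [Sym2.mem_iff] at h
    rcases h with rfl | rfl
    · exact he.1
    · exact he.2.1

/-- the faces of the dual cluster and their reflections are on side `0` of the doubled walk -/
theorem side_zero {n : ℤ} {ω : Finset (Sym2 (ℤ × ℤ))} {x1 x0 : ℤ}
    (p1 : lattice.Walk (x1, n) (x0, 0))
    (h1 : ∀ e ∈ p1.edges, e ∈ ω ∧ e ∈ edgesIn (box 0 n 0 n))
    (p : lattice.Walk (x1, n) (x1, -n))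
    (hpe : ∀ e, e ∈ p.edges ↔ (e ∈ p1.edges ∨ ∃ e' ∈ p1.edges, emb flipY e' = e))
    (hps : ∀ w ∈ p.support, 0 ≤ w.1) :
    ∀ f ∈ DW n ω, side p f = 0 ∧ side p (rf f) = 0 := by
  intro f hf
  obtain ⟨hff, j, hj, hp⟩ := mem_DW.1 hf
  clear hf hff
  induction hp with
  | refl =>
    constructor
    · exact side_left p (fun w hw => by have := hps w hw; omega)
    · unfold rf
      exact side_left p (fun w hw => by have := hps w hw; simp only; omega)
  | @tail f g _ hfg ih =>
    obtain ⟨ih1, ih2⟩ := ih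
    obtain ⟨hadj, hf, hg, he, hω⟩ := hfg
    rw [mem_faces] at hf hg
    have c1 : crossEdge f g ∉ p1.edges := fun h => hω (h1 _ h).1
    obtain ⟨w, hw1, hw2⟩ := crossEdge_top hadj hf.2.2.1 hg.2.2.1
    have c2 : crossEdge f g ∉ p.edges := by
      rw [hpe]
      rintro (h | ⟨e', he', h⟩)
      · exact c1 h
      · have h2 : flipY w ∈ e' := by
          rw [← h] at hw1
          have := mem_emb (f := flipY) hw1
          have h3 : emb flipY (emb flipY e') = e' := by
            induction e' using Sym2.ind with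
            | _ u v => rw [emb_mk, emb_mk, flipY_flipY, flipY_flipY]
          rwa [h3] at this
        have h3 := mem_of_mem_edgesIn (h1 _ he').2 h2
        rw [mem_box] at h3
        simp only [flipY_apply] at h3
        omega
    have c3 : crossEdge (rf f) (rf g) ∉ p.edges := by
      rw [crossEdge_rf hadj, hpe]
      rintro (h | ⟨e', he', h⟩)
      · have h2 := mem_emb (f := flipY) hw1
        have h3 := mem_of_mem_edgesIn (h1 _ h).2 h2
        rw [mem_box] at h3
        simp only [flipY_apply] at h3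
        omega
      · have := (emb flipY).injective h
        rw [this] at he'
        exact c1 he'
    constructor
    · rw [← ih1]
      exact (side_face_adj p hadj (by simp only; omega) (by simp only; omega)
        (by simp only; omega) (by simp only; omega) c2).symm
    · rw [← ih2]
      exact (side_face_adj p (rf_adj hadj) (by simp only [rf]; omega) (by simp only [rf]; omega)
        (by simp only [rf]; omega) (by simp only [rf]; omega) c3).symm

/-- the edges of a walk end in the tail of its support -/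
lemma edge_tail {V : Type*} {G : SimpleGraph V} {a b : V} (q : G.Walk a b) :
    ∀ e ∈ q.edges, ∃ w ∈ q.support.tail, w ∈ e := by
  induction q with
  | nil => simp
  | @cons a c b hadj r ih =>
    intro e he
    rw [Walk.edges_cons, List.mem_cons] at he
    rw [Walk.support_cons, List.tail_cons]
    rcases he with rfl | he
    · exact ⟨c, r.start_mem_support, Sym2.mem_mk_right _ _⟩
    · obtain ⟨w, hw, h⟩ := ih e he
      exact ⟨w, List.mem_of_mem_tail hw, h⟩

/-- explored edges and their reflections -/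
noncomputable def Exr (n : ℤ) (D : Finset (ℤ × ℤ)) : Finset (Sym2 (ℤ × ℤ)) :=
  Ex n D ∪ (Ex n D).map (emb flipY)

/-- **Unexplored continuation**: a left-right crossing of `[0,m] × [-n,n]` contains a path from a
vertex of the doubled walk to the right side through unexplored edges. -/
theorem continuation {n m : ℤ} (hn : 1 ≤ n) (hm : n ≤ m) {ω0 : Finset (Sym2 (ℤ × ℤ))} {x1 x0 : ℤ}
    (p1 : lattice.Walk (x1, n) (x0, 0))
    (h1 : ∀ e ∈ p1.edges, e ∈ ω0 ∧ e ∈ edgesIn (box 0 n 0 n))
    (hs1 : ∀ w ∈ p1.support, w ∈ box 0 n 0 n)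
    {ω : Finset (Sym2 (ℤ × ℤ))} (hω : ω ⊆ edgesIn (box 0 m (-n) n)) (h : LR 0 m (-n) n ω) :
    ∃ c ∈ p1.support, ∃ y, -n ≤ y ∧ y ≤ n ∧
      (Joined (ω ∩ (edgesIn (box 0 m (-n) n) \ Exr n (DW n ω0))) c (m, y) ∨
       Joined (ω ∩ (edgesIn (box 0 m (-n) n) \ Exr n (DW n ω0))) (flipY c) (m, y)) := by
  classical
  obtain ⟨p, hpe, hps⟩ := double_walk p1
  have hps1 : ∀ w ∈ p.support, 0 ≤ w.1 ∧ w.1 ≤ n := by
    intro w hw
    rw [hps] at hw
    rcases hw with hw | ⟨w', hw', rfl⟩
    · have := mem_box.1 (hs1 w hw); omega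
    · have := mem_box.1 (hs1 w' hw'); simp only [flipY_apply]; omega
  have hside := side_zero p1 h1 p hpe (fun w hw => (hps1 w hw).1)
  obtain ⟨ya, yb, hya, hya', hyb, hyb', hj⟩ := h
  have hlat : ∀ e ∈ ω, e ∈ lattice.edgeSet := by
    intro e he
    have := hω he
    unfold edgesIn at this
    exact (mem_filter.1 this).2
  obtain ⟨q, hq⟩ := joined_walk hlat hj
  have hqs : ∀ w ∈ q.support, w ∈ box 0 m (-n) n := by
    apply support_subset q (fun e he => hω (hq e he))
    rw [mem_box]; simp only; omega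
  obtain ⟨c, q₁, q₂, hc, hqq, htail⟩ := crossing_last p q (by simp only; omega)
    (fun w hw => by have := mem_box.1 (hqs w hw); simp only; omega)
    (fun w hw => by have := hps1 w hw; simp only; omega)
    (fun w hw => by have := hps1 w hw; simp only; omega)
  have hq2e : ∀ e ∈ q₂.edges, e ∈ q.edges := by
    intro e he
    rw [hqq, Walk.edges_append, List.mem_append]
    exact Or.inr he
  have hq2s : ∀ w ∈ q₂.support, w ∈ q.support := by
    intro w hw
    rw [hqq, Walk.mem_support_append_iff]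
    exact Or.inr hw
  have main : Joined (ω ∩ (edgesIn (box 0 m (-n) n) \ Exr n (DW n ω0))) c (m, yb) := by
    apply walk_joined q₂
    intro e he
    have he1 := hq e (hq2e e he)
    rw [mem_inter, mem_sdiff]
    refine ⟨he1, hω he1, ?_⟩
    obtain ⟨w, hw, hwe⟩ := edge_tail q₂ e he
    obtain ⟨hw1, hw2⟩ := htail w hw
    have hwb := mem_box.1 (hqs w (hq2s w (List.mem_of_mem_tail hw)))
    unfold Exr
    rw [mem_union, mem_map]
    rintro (h2 | ⟨e', h2, h3⟩)
    · obtain ⟨_, f, hf, g, hg, hadj, hfg⟩ := mem_Ex.1 h2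
      rw [← hfg] at hwe
      have h4 := mem_crossEdge hadj hwe
      have hf' := mem_faces.1 (mem_DW.1 hf).1
      have h5 := side_of_vertex p w hw1 (by simp only; omega) (by simp only; omega) f h4.1 h4.2
        (by simp only; omega) (by simp only; omega)
      rw [(hside f hf).1, hw2] at h5
      exact absurd h5 (by decide)
    · obtain ⟨_, f, hf, g, hg, hadj, hfg⟩ := mem_Ex.1 h2
      rw [← h3, ← hfg, ← crossEdge_rf hadj] at hwe
      have h4 := mem_crossEdge (rf_adj hadj) hwe
      have hf' := mem_faces.1 (mem_DW.1 hf).1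
      have h5 := side_of_vertex p w hw1 (by simp only; omega) (by simp only; omega) (rf f)
        h4.1 h4.2 (by simp only [rf]; omega) (by simp only [rf]; omega)
      rw [(hside f hf).2, hw2] at h5
      exact absurd h5 (by decide)
  rw [hps] at hc
  rcases hc with hc | ⟨c', hc', rfl⟩
  · exact ⟨c, hc, yb, hyb, hyb', Or.inl main⟩
  · exact ⟨c', hc', yb, hyb, hyb', Or.inr main⟩

end H47Perc.H46
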